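import Pool.Agent.Helper30.CIR.Goals
import Mathlib

/-!
# Project CIR (MP_f32c9c_an): packet MEA
-/

set_option autoImplicit false

open Set Filter Topology MeasureTheory

open scoped ContDiff

namespace Pool.Agent.Helper90.CIR

open Pool.Agent.Helper56.RZ Pool.Agent.Helper30.CIR

/-- a bounded function that is continuous on the carrier of a finite measure is integrable -/
theorem integrable_of_contOn {K : ℕ} {M : Set (E K)} {m : Measure (E K)} [IsFiniteMeasure m]
    (hM : MeasurableSet M) (h0 : m Mᶜ = 0) {u : E K → ℝ} (hu : ContinuousOn u M) {C : ℝ}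
    (hb : ∀ x ∈ M, |u x| ≤ C) : Integrable u m := by
  have hae : ∀ᵐ x ∂m, x ∈ M := by
    rw [ae_iff]
    exact h0
  have hr : m.restrict M = m := Measure.restrict_eq_self_of_ae_mem hae
  refine Integrable.of_bound (C := C) ?_ ?_
  · rw [← hr]
    exact hu.aestronglyMeasurable hM
  · filter_upwards [hae] with x hx
    rw [Real.norm_eq_abs]
    exact hb x hx

theorem gMEA (hORB : Pool.Agent.Helper30.CIR.StmtORB) (hABS : StmtABS) (hNUL : StmtNUL) (hDIF : StmtDIF)
    (hDER : StmtDER) : Pool.Agent.Helper30.CIR.StmtMEA := by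
  intro N K s M m f f' A F om c h1s hs hCM hf hfA hD hc0 hc hnt
  by_contra hcon
  push Not at hcon
  apply hnt
  have hMc := hCM.compact
  have hMm : MeasurableSet M := hMc.measurableSet
  have hfin : IsFiniteMeasure m := ⟨lt_top_iff_ne_top.mpr hCM.finite⟩
  have hae : ∀ᵐ x ∂m, x ∈ M := by
    rw [ae_iff]
    exact hCM.null
  have hompos := hD.pos
  have habs : |c| ≤ 1 / 2 := by rw [abs_of_pos hc0]; exact hc
  have hfl := hD.flow
  have hder := hDER K s M A F om c 0 h1s hs hD habs
  have hkc : ContinuousOn (kap c F) M := hder.2.1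
  have hkb := hder.2.2
  have hdif := hDIF K s M A F om c 0 hD habs hs
  -- the maps
  have hmaps : ∀ th, MapsTo (gg f A c om th F) M M := by
    intro th x hx
    exact hf.maps ((hfl.maps _) hx)
  have hgc : ContinuousOn (fun p : ℝ × E K => gg f A c om (p.1 / om) F p.2) (univ ×ˢ M) := by
    have e1 : ContinuousOn (fun p : (ℝ × ℝ) × E K => hh A p.1.1 om p.1.2 F p.2)
        ({p : ℝ × ℝ | |p.1| < 1} ×ˢ M) := hdif.2.1.continuousOn
    have e2 : ContinuousOn (fun p : ℝ × E K => (((c, p.1 / om), p.2) : (ℝ × ℝ) × E K))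
        (univ ×ˢ M) := by
      refine Continuous.continuousOn ?_
      fun_prop
    have e3 : ContinuousOn (fun p : ℝ × E K => hh A c om (p.1 / om) F p.2) (univ ×ˢ M) :=
      e1.comp e2 fun p hp => ⟨by
        show |c| < 1
        linarith, hp.2⟩
    exact hf.smooth.continuousOn.comp e3 fun p hp => (hfl.maps _) hp.2
  have hAc : ContinuousOn (fun p : ℝ × E K => A (p.1 / om) p.2) (univ ×ˢ M) := by
    have e2 : ContinuousOn (fun p : ℝ × E K => ((p.1 / om, p.2) : ℝ × E K)) (univ ×ˢ M) := by
      refine Continuous.continuousOn ?_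
      fun_prop
    exact hfl.smooth.continuousOn.comp e2 fun p hp => ⟨mem_univ _, hp.2⟩
  have hitm : ∀ (k : ℕ) (τ : ℝ), ∀ x ∈ M, (gg f A c om (τ / om) F)^[k] (A (τ / om) x) ∈ M := by
    intro k τ x hx
    exact (hmaps _).iterate k ((hfl.maps _) hx)
  have hitc : ∀ k : ℕ, ContinuousOn
      (fun p : ℝ × E K => (gg f A c om (p.1 / om) F)^[k] (A (p.1 / om) p.2)) (univ ×ˢ M) := by
    intro k
    induction k with
    | zero => simpa using hAc
    | succ k ih =>
      have e1 : ContinuousOn
          (fun p : ℝ × E K => ((p.1, (gg f A c om (p.1 / om) F)^[k] (A (p.1 / om) p.2)) : ℝ × E K))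
          (univ ×ˢ M) := continuousOn_fst.prodMk ih
      have e2 := hgc.comp e1 fun p hp => ⟨mem_univ _, hitm k p.1 p.2 hp.2⟩
      refine e2.congr ?_
      intro p hp
      show (gg f A c om (p.1 / om) F)^[k + 1] (A (p.1 / om) p.2) = _
      rw [Function.iterate_succ_apply']
      rfl
  -- bounds of the logarithm
  have hlog : ∀ y ∈ M, |Real.log (kap c F y)| ≤ Real.log 4 := by
    intro y hy
    obtain ⟨h1, h2⟩ := hkb y hy
    have hpos : 0 < kap c F y := by linarith
    rw [abs_le]
    constructor
    · rw [← Real.log_inv]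
      apply Real.log_le_log (by norm_num)
      norm_num
      linarith
    · exact Real.log_le_log hpos h2
  -- the functions
  set w : ℕ → ℝ → E K → ℝ := fun n τ x => ∑ k ∈ Finset.range n,
    Real.log (kap c F ((gg f A c om (τ / om) F)^[k] (A (τ / om) x))) with hw
  have hwc : ∀ n, ContinuousOn (fun p : ℝ × E K => w n p.1 p.2) (univ ×ˢ M) := by
    intro n
    refine continuousOn_finsetSum _ fun k _ => ?_
    have e1 : ContinuousOn (fun p : ℝ × E K =>
        kap c F ((gg f A c om (p.1 / om) F)^[k] (A (p.1 / om) p.2))) (univ ×ˢ M) :=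
      hkc.comp (hitc k) fun p hp => hitm k p.1 p.2 hp.2
    refine e1.log ?_
    intro p hp
    have := (hkb _ (hitm k p.1 p.2 hp.2)).1
    linarith
  have hwb : ∀ n τ, ∀ x ∈ M, |w n τ x| ≤ n * Real.log 4 := by
    intro n τ x hx
    calc |w n τ x| ≤ ∑ k ∈ Finset.range n,
          |Real.log (kap c F ((gg f A c om (τ / om) F)^[k] (A (τ / om) x)))| :=
          Finset.abs_sum_le_sum_abs _ _
      _ ≤ ∑ k ∈ Finset.range n, Real.log 4 :=
          Finset.sum_le_sum fun k _ => hlog _ (hitm k τ x hx)
      _ = n * Real.log 4 := by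
          rw [Finset.sum_const, Finset.card_range, nsmul_eq_mul]
  have hlog4 : 0 ≤ Real.log 4 := Real.log_nonneg (by norm_num)
  have hvb : ∀ n τ, ∀ x ∈ M, |w n τ x / n| ≤ Real.log 4 := by
    intro n τ x hx
    rcases Nat.eq_zero_or_pos n with rfl | hn
    · simpa using hlog4
    · have hn' : (0 : ℝ) < n := by exact_mod_cast hn
      rw [abs_div, abs_of_pos hn', div_le_iff₀ hn']
      calc |w n τ x| ≤ n * Real.log 4 := hwb n τ x hx
        _ = Real.log 4 * n := mul_comm _ _
  have hmeas : ∀ n, AEStronglyMeasurable (fun p : ℝ × E K => w n p.1 p.2 / n)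
      ((volume.restrict (Icc (0 : ℝ) 1)).prod m) := by
    intro n
    have hr : m.restrict M = m := Measure.restrict_eq_self_of_ae_mem hae
    have hr2 : (volume.restrict (Icc (0 : ℝ) 1)).prod m =
        ((volume.restrict (Icc (0 : ℝ) 1)).prod m).restrict (univ ×ˢ M) := by
      conv_lhs => rw [← hr, ← Measure.restrict_univ (μ := volume.restrict (Icc (0 : ℝ) 1))]
      rw [Measure.prod_restrict]
    rw [hr2]
    exact ((hwc n).div_const _).aestronglyMeasurable (MeasurableSet.univ.prod hMm)
  have hFc : ∀ k : ℕ, ContinuousOn (fun x => ‖F (f^[k] x)‖ ^ 2) M := by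
    intro k
    have e1 : ContinuousOn (f^[k]) M := by
      induction k with
      | zero => simpa using continuousOn_id
      | succ k ih =>
        rw [Function.iterate_succ']
        exact hf.smooth.continuousOn.comp ih (hf.maps.iterate k)
    exact ((hD.eig.1.continuousOn.comp e1 (hf.maps.iterate k)).norm).pow 2
  have hFb : ∀ k : ℕ, ∀ x ∈ M, |‖F (f^[k] x)‖ ^ 2| ≤ 1 := by
    intro k x hx
    have h1 := hD.le1 _ (hf.maps.iterate k hx)
    have h2 := norm_nonneg (F (f^[k] x))
    rw [abs_of_nonneg (by positivity)]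
    nlinarith
  have hFi : ∀ k : ℕ, Integrable (fun x => ‖F (f^[k] x)‖ ^ 2) m := fun k =>
    integrable_of_contOn hMm hCM.null (hFc k) (hFb k)
  have hb := hABS (E K) m (fun n τ x => w n τ x / n) (Real.log 4)
    (fun n => c ^ 2 * ((∑ k ∈ Finset.range n, ∫ x, ‖F (f^[k] x)‖ ^ 2 ∂m) / n)) hmeas
    (by
      intro n τ _
      filter_upwards [hae] with x hx
      exact hvb n τ x hx)
    (by
      intro τ hτ
      have h1 := hcon (τ / om) (div_nonneg hτ.1 hompos.le)
        (div_le_div_of_nonneg_right hτ.2 hompos.le)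
      have hdA : IsDiffeo 1 M (A (τ / om)) (A (-(τ / om))) := by
        have hsl : ∀ t : ℝ, ContDiffOn ℝ 1 (A t) M := by
          intro t
          have h1 : ContDiffOn ℝ s (fun x : E K => ((t, x) : ℝ × E K)) M :=
            contDiffOn_const.prodMk contDiffOn_id
          exact (hfl.smooth.comp h1 fun x hx => ⟨mem_univ _, hx⟩).of_le h1s
        refine ⟨hfl.maps _, hfl.maps _, ?_, ?_, hsl _, hsl _⟩
        · intro x hx
          rw [← hfl.add _ _ x hx]
          simpa using hfl.zero x hx
        · intro x hx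
          rw [← hfl.add _ _ x hx]
          simpa using hfl.zero x hx
      have h2 := hNUL N K M m (A (τ / om)) (A (-(τ / om))) hCM hdA _ (ae_iff.mp h1)
      have h3 : ∀ᵐ x ∂m, x ∉ (A (τ / om) ⁻¹' {a | ¬ ∀ lam < (0 : ℝ), ∀ᶠ n : ℕ in atTop,
          lam ≤ (∑ k ∈ Finset.range n,
            Real.log (kap c F ((gg f A c om (τ / om) F)^[k] a))) / n} ∩ M) :=
        measure_eq_zero_iff_ae_notMem.mp h2
      filter_upwards [h3, hae] with x hx hxM
      by_contra hne
      exact hx ⟨hne, hxM⟩)
    (by
      intro n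
      have : 0 ≤ ∑ k ∈ Finset.range n, ∫ x, ‖F (f^[k] x)‖ ^ 2 ∂m :=
        Finset.sum_nonneg fun k _ => integral_nonneg fun x => by positivity
      positivity)
    (by
      intro n
      have hint : Integrable (fun p : ℝ × E K => w n p.1 p.2 / n)
          ((volume.restrict (Icc (0 : ℝ) 1)).prod m) := by
        refine Integrable.of_bound (C := Real.log 4) (hmeas n) ?_
        have h1 : ∀ᵐ p ∂((volume.restrict (Icc (0 : ℝ) 1)).prod m), p.2 ∈ M := by
          have := Measure.quasiMeasurePreserving_snd (μ := volume.restrict (Icc (0 : ℝ) 1))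
            (ν := m)
          exact this.ae hae
        filter_upwards [h1] with p hp
        rw [Real.norm_eq_abs]
        exact hvb n p.1 p.2 hp
      have hint2 : Integrable (fun x => ∫ τ in (0 : ℝ)..1, w n τ x / n) m := by
        have h1 := hint.integral_prod_right
        refine h1.congr ?_
        refine Filter.Eventually.of_forall fun x => ?_
        show ∫ τ, w n τ x / n ∂(volume.restrict (Icc (0 : ℝ) 1)) = ∫ τ in (0 : ℝ)..1, w n τ x / n
        rw [intervalIntegral.integral_of_le zero_le_one, integral_Icc_eq_integral_Ioc]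
      have hrhs : Integrable (fun x => -(c ^ 2 * ∑ k ∈ Finset.range n, ‖F (f^[k] x)‖ ^ 2) / n) m :=
        (((integrable_finsetSum _ fun k _ => hFi k).const_mul _).neg).div_const _
      have hle : ∫ x, (∫ τ in (0 : ℝ)..1, w n τ x / n) ∂m ≤
          ∫ x, -(c ^ 2 * ∑ k ∈ Finset.range n, ‖F (f^[k] x)‖ ^ 2) / n ∂m := by
        refine integral_mono_ae hint2 hrhs ?_
        filter_upwards [hae] with x hx
        rw [intervalIntegral.integral_div]
        refine div_le_div_of_nonneg_right ?_ (Nat.cast_nonneg n)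
        exact hORB K s M A f F om c hD hf.maps hfA hc0.le hc x hx n
      refine hle.trans (le_of_eq ?_)
      rw [integral_div, integral_neg, integral_const_mul,
        integral_finsetSum _ fun k _ => hFi k]
      ring)
  have hc2 : c ^ 2 ≠ 0 := by positivity
  have h1 := hb.const_mul (c ^ 2)⁻¹
  rw [mul_zero] at h1
  refine h1.congr fun n => ?_
  rw [← mul_assoc, inv_mul_cancel₀ hc2, one_mul]

end Pool.Agent.Helper90.CIR
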